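import Pool.Agent.Q146.BT.Core

/-!
# Having Bradley-Terry dimension `d` is an `L₁`-testable property of stochastic tournaments
-/

set_option autoImplicit false

open Finset

namespace Pool.Agent.Results.MP_4530c2_lc.BTDimTestable

/-- `K` is a tournament on `Fin n`; `K x y` means that the edge `xy` is oriented from `x` to
`y`. -/
def IsTournament {n : ℕ} (K : Fin n → Fin n → Prop) : Prop :=
  (∀ x, ¬ K x x) ∧ ∀ x y, x ≠ y → (K x y ↔ ¬ K y x)

/-- `w` gives every arc of `K` a weight in `[0, 1]` (only the values of `w` on arcs matter). -/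
def IsWeight {n : ℕ} (K : Fin n → Fin n → Prop) (w : Fin n → Fin n → ℝ) : Prop :=
  ∀ x y, K x y → 0 ≤ w x y ∧ w x y ≤ 1

open Classical in
/-- The matrix `p` of the stochastic tournament `(K, w)`. -/
noncomputable def mat {n : ℕ} (K : Fin n → Fin n → Prop) (w : Fin n → Fin n → ℝ) :
    Fin n → Fin n → ℝ :=
  fun x y => if K x y then w x y else 1 - w y x

/-- `P` (off the diagonal) is the average of `d` Bradley-Terry matrices. -/
def IsBTRep (d : ℕ) {n : ℕ} (P : Fin n → Fin n → ℝ) : Prop :=
  ∃ a : Fin d → Fin n → ℝ, (∀ i x, 0 < a i x) ∧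
    ∀ x y, x ≠ y → P x y = (1 / (d : ℝ)) * ∑ i, a i x / (a i x + a i y)

/-- BT-dimension `d`. -/
def HasBTDim (d : ℕ) {n : ℕ} (P : Fin n → Fin n → ℝ) : Prop :=
  IsBTRep d P ∧ ¬ IsBTRep (d - 1) P

open Classical in
/-- `(K, w)` is `ε`-far from having BT-dimension `d`. -/
def IsFar (ε : ℝ) (d : ℕ) {n : ℕ} (K : Fin n → Fin n → Prop) (w : Fin n → Fin n → ℝ) : Prop :=
  ∀ w' : Fin n → Fin n → ℝ, IsWeight K w' → HasBTDim d (mat K w') →
    ε * (n : ℝ) ^ 2 ≤ ∑ x, ∑ y, (if K x y then |w x y - w' x y| else 0)

/-- A (non-adaptive) randomized algorithm on `n × n` matrices which makes at most `q` queries: it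
draws `ω` uniformly from a finite nonempty set, reads the entries indexed by `Q ω`, and accepts or
rejects depending only on `ω` and the values read. -/
structure Tester (n q : ℕ) where
  Ω : Type
  fin : Finite Ω
  ne : Nonempty Ω
  Q : Ω → Finset (Fin n × Fin n)
  card_le : ∀ ω, (Q ω).card ≤ q
  acc : Ω → (Fin n → Fin n → ℝ) → Prop
  loc : ∀ ω P P', (∀ e ∈ Q ω, P e.1 e.2 = P' e.1 e.2) → (acc ω P ↔ acc ω P')

/-- The probability that the algorithm accepts. -/
noncomputable def Tester.acceptProb {n q : ℕ} (T : Tester n q) (P : Fin n → Fin n → ℝ) : ℝ :=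
  (Nat.card {ω // T.acc ω P} : ℝ) / (Nat.card T.Ω : ℝ)

/-! ### Auxiliary facts -/

lemma mat_add {n : ℕ} {K : Fin n → Fin n → Prop} (hK : IsTournament K) (w : Fin n → Fin n → ℝ)
    (x y : Fin n) (hxy : x ≠ y) : mat K w x y + mat K w y x = 1 := by
  unfold mat
  by_cases h : K x y
  · have h' : ¬ K y x := (hK.2 x y hxy).1 h
    simp [h, h']
  · have h' : K y x := by
      by_contra hc
      exact h ((hK.2 x y hxy).2 hc)
    simp [h, h']

lemma mat_mem {n : ℕ} {K : Fin n → Fin n → Prop} (hK : IsTournament K) {w : Fin n → Fin n → ℝ}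
    (hw : IsWeight K w) (x y : Fin n) (hxy : x ≠ y) : 0 ≤ mat K w x y ∧ mat K w x y ≤ 1 := by
  unfold mat
  by_cases h : K x y
  · simpa [h] using hw x y h
  · have h' : K y x := by
      by_contra hc
      exact h ((hK.2 x y hxy).2 hc)
    have := hw y x h'
    simp only [h, if_false]
    constructor <;> linarith [this.1, this.2]

lemma rep_mono {d n : ℕ} {P P' : Fin n → Fin n → ℝ} (h : ∀ x y, x ≠ y → P x y = P' x y)
    (hP : IsBTRep d P) : IsBTRep d P' := by
  obtain ⟨a, h1, h2⟩ := hP
  exact ⟨a, h1, fun x y hxy => by rw [← h x y hxy, h2 x y hxy]⟩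

lemma dim_congr {d n : ℕ} {P P' : Fin n → Fin n → ℝ} (h : ∀ x y, x ≠ y → P x y = P' x y) :
    HasBTDim d P ↔ HasBTDim d P' :=
  ⟨fun hP => ⟨rep_mono h hP.1, fun hc => hP.2 (rep_mono (fun x y hxy => (h x y hxy).symm) hc)⟩,
    fun hP => ⟨rep_mono (fun x y hxy => (h x y hxy).symm) hP.1, fun hc => hP.2 (rep_mono h hc)⟩⟩

/-- the matrix with `1/2` on the diagonal -/
noncomputable def hat {n : ℕ} (P : Fin n → Fin n → ℝ) : Fin n → Fin n → ℝ :=
  fun x y => if x = y then 1 / 2 else P x y

/-- The trivial tester reading the whole matrix. -/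
noncomputable def fullTester (n q : ℕ) (hq : n * n ≤ q) (d : ℕ) : Tester n q where
  Ω := Unit
  fin := inferInstance
  ne := inferInstance
  Q := fun _ => univ
  card_le := fun _ => by
    rw [Finset.card_univ, Fintype.card_prod, Fintype.card_fin]
    exact hq
  acc := fun _ P => HasBTDim d P
  loc := fun _ P P' h => by
    have : P = P' := by
      funext x y
      exact h (x, y) (Finset.mem_univ _)
    rw [this]

lemma fullTester_prob (n q : ℕ) (hq : n * n ≤ q) (d : ℕ) (P : Fin n → Fin n → ℝ) :
    (HasBTDim d P → (fullTester n q hq d).acceptProb P = 1) ∧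
      (¬ HasBTDim d P → (fullTester n q hq d).acceptProb P = 0) := by
  unfold Tester.acceptProb
  constructor
  · intro h
    have e : Nat.card {ω // (fullTester n q hq d).acc ω P} = Nat.card (fullTester n q hq d).Ω :=
      Nat.card_congr (Equiv.subtypeUnivEquiv (fun _ => h))
    have e2 : Nat.card (fullTester n q hq d).Ω = 1 := by
      change Nat.card Unit = 1
      simp
    rw [e, e2]
    simp
  · intro h
    have e : Nat.card {ω // (fullTester n q hq d).acc ω P} = 0 := by
      haveI : IsEmpty {ω // (fullTester n q hq d).acc ω P} := ⟨fun ω => h ω.2⟩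
      exact Nat.card_of_isEmpty
    rw [e]
    simp

/-- The tester which reads the matrix on `r` random vertices and accepts if what it sees is an
average of `d` Bradley-Terry matrices. -/
noncomputable def sampleTester (n q r : ℕ) (hn : 0 < n) (hq : r * r ≤ q) (d : ℕ) : Tester n q where
  Ω := Fin r → Fin n
  fin := inferInstance
  ne := ⟨fun _ => ⟨0, hn⟩⟩
  Q := fun s => (univ : Finset (Fin r × Fin r)).image (fun ij => (s ij.1, s ij.2))
  card_le := fun s => by
    refine Finset.card_image_le.trans ?_
    rw [Finset.card_univ, Fintype.card_prod, Fintype.card_fin]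
    exact hq
  acc := fun s P => Q146.BT.Rz d (hat P) s
  loc := fun s P P' h => by
    have h1 : ∀ i j, hat P (s i) (s j) = hat P' (s i) (s j) := by
      intro i j
      unfold hat
      split_ifs
      · rfl
      · exact h (s i, s j) (Finset.mem_image.2 ⟨(i, j), Finset.mem_univ _, rfl⟩)
    constructor
    · rintro ⟨a, ha, hp⟩
      exact ⟨a, ha, fun i j => by rw [← h1, hp]⟩
    · rintro ⟨a, ha, hp⟩
      exact ⟨a, ha, fun i j => by rw [h1, hp]⟩

lemma rz_of_rep (d : ℕ) (hd : 0 < d) {n r : ℕ} (P : Fin n → Fin n → ℝ) (hP : IsBTRep d P)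
    (s : Fin r → Fin n) : Q146.BT.Rz d (hat P) s := by
  obtain ⟨a, ha, hp⟩ := hP
  refine ⟨fun i c => a c (s i), fun i c => ha c (s i), fun i j => ?_⟩
  unfold hat
  split_ifs with h
  · simp only [h]
    exact (Q146.BT.F_self d hd _ (fun c => ha c (s j))).symm
  · rw [hp _ _ h]
    rfl

/-- For every `d ≥ 2` the property of having BT-dimension `d` is `L₁`-testable: for every `ε > 0`
there is a bound `q` on the number of queries, independent of `n`, such that for every `n` some
(non-adaptive) algorithm making at most `q` queries accepts every stochastic tournament on `n`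
vertices of BT-dimension `d` with probability `1` and accepts every stochastic tournament which is
`ε`-far from having BT-dimension `d` with probability at most `1/3`. -/
theorem result (d : ℕ) (hd : 2 ≤ d) (ε : ℝ) (hε : 0 < ε) :
    ∃ q : ℕ, ∀ n : ℕ, ∃ T : Tester n q, ∀ (K : Fin n → Fin n → Prop) (w : Fin n → Fin n → ℝ),
      IsTournament K → IsWeight K w →
        (HasBTDim d (mat K w) → T.acceptProb (mat K w) = 1) ∧
        (IsFar ε d K w → T.acceptProb (mat K w) ≤ 1 / 3) := by
  classical
  have hd0 : 0 < d := by omega
  -- the trivial tester is correct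
  have hfull : ∀ (n q : ℕ) (hq : n * n ≤ q) (K : Fin n → Fin n → Prop) (w : Fin n → Fin n → ℝ),
      IsTournament K → IsWeight K w →
        (HasBTDim d (mat K w) → (fullTester n q hq d).acceptProb (mat K w) = 1) ∧
        (IsFar ε d K w → (fullTester n q hq d).acceptProb (mat K w) ≤ 1 / 3) := by
    intro n q hq K w hK hw
    refine ⟨(fullTester_prob n q hq d _).1, fun hfar => ?_⟩
    have hno : ¬ HasBTDim d (mat K w) := by
      intro h
      rcases Nat.eq_zero_or_pos n with h0 | h0
      · subst h0
        exact h.2 ⟨fun _ x => x.elim0, fun _ x => x.elim0, fun x => x.elim0⟩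
      · have h1 := hfar w hw h
        have h2 : ∑ x, ∑ y, (if K x y then |w x y - w x y| else 0) = 0 := by
          apply Finset.sum_eq_zero
          intro x _
          apply Finset.sum_eq_zero
          intro y _
          simp
        rw [h2] at h1
        have : (0:ℝ) < n := by exact_mod_cast h0
        have : 0 < ε * (n:ℝ) ^ 2 := by positivity
        linarith
    rw [(fullTester_prob n q hq d _).2 hno]
    norm_num
  by_cases hex : ∃ (n₀ : ℕ) (R₀ : Fin n₀ → Fin n₀ → ℝ), HasBTDim d R₀
  · obtain ⟨n₀, R₀, hR₀⟩ := hex
    obtain ⟨r, hr⟩ := Q146.BT.core d hd0 (ε / 4) (by positivity)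
    set N₁ : ℕ := max (n₀ + 1) ⌈8 * n₀ / ε⌉₊ with hN₁
    refine ⟨max (r * r) (N₁ * N₁), fun n => ?_⟩
    by_cases hn : n < N₁
    · refine ⟨fullTester n _ (le_trans (Nat.mul_le_mul hn.le hn.le) (le_max_right _ _)) d, ?_⟩
      exact hfull n _ _
    · rw [not_lt] at hn
      have hn₀ : n₀ + 1 ≤ n := (le_max_left _ _).trans hn
      have hnpos : 0 < n := by omega
      have hnR : (0:ℝ) < n := by exact_mod_cast hnpos
      have hn8 : 8 * (n₀:ℝ) / ε ≤ n :=
        (Nat.le_ceil _).trans (by exact_mod_cast (le_max_right _ _).trans hn)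
      haveI : Nonempty (Fin n) := ⟨⟨0, hnpos⟩⟩
      refine ⟨sampleTester n _ r hnpos (le_max_left _ _) d, ?_⟩
      intro K w hK hw
      have hΩ : Nat.card (sampleTester n (max (r * r) (N₁ * N₁)) r hnpos (le_max_left _ _) d).Ω =
          n ^ r := by
        change Nat.card (Fin r → Fin n) = n ^ r
        rw [Nat.card_eq_fintype_card, Fintype.card_fun, Fintype.card_fin, Fintype.card_fin]
      have hacc : Nat.card {ω // (sampleTester n (max (r * r) (N₁ * N₁)) r hnpos
          (le_max_left _ _) d).acc ω (mat K w)} =
          (univ.filter (fun s : Fin r → Fin n => Q146.BT.Rz d (hat (mat K w)) s)).card := by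
        change Nat.card {s : Fin r → Fin n // Q146.BT.Rz d (hat (mat K w)) s} = _
        rw [Nat.card_eq_fintype_card, Fintype.card_subtype]
      unfold Tester.acceptProb
      rw [hΩ, hacc]
      have hnr : (0:ℝ) < ((n ^ r : ℕ) : ℝ) := by exact_mod_cast Nat.pow_pos hnpos
      constructor
      · intro hdim
        have h1 : univ.filter (fun s : Fin r → Fin n => Q146.BT.Rz d (hat (mat K w)) s) = univ := by
          apply Finset.filter_true_of_mem
          intro s _
          exact rz_of_rep d hd0 _ hdim.1 s
        rw [h1, Finset.card_univ, Fintype.card_fun, Fintype.card_fin, Fintype.card_fin]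
        exact div_self hnr.ne'
      · intro hfar
        by_contra hc
        rw [not_le, lt_div_iff₀ hnr] at hc
        have hp0 : ∀ x y, 0 ≤ hat (mat K w) x y := by
          intro x y
          unfold hat
          split_ifs with h
          · norm_num
          · exact (mat_mem hK hw x y h).1
        have hp1 : ∀ x y, hat (mat K w) x y ≤ 1 := by
          intro x y
          unfold hat
          split_ifs with h
          · norm_num
          · exact (mat_mem hK hw x y h).2
        have hadd : ∀ x y, hat (mat K w) x y + hat (mat K w) y x = 1 := by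
          intro x y
          unfold hat
          by_cases h : x = y
          · simp [h]; norm_num
          · rw [if_neg h, if_neg (Ne.symm h)]
            exact mat_add hK w x y h
        obtain ⟨a, ha, hclose⟩ := hr (Fin n) (hat (mat K w)) hp0 hp1 hadd (by
          rw [Fintype.card_fin]
          push_cast at hc
          exact hc)
        rw [Fintype.card_fin] at hclose
        -- plant the small matrix of dimension `d`
        obtain ⟨⟨b, hb, hbR⟩, hnot⟩ := hR₀
        set e : Fin n₀ → Fin n := fun i => ⟨i, by omega⟩ with he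
        set a' : Fin n → Fin d → ℝ := fun x => if h : (x:ℕ) < n₀ then fun c => b c ⟨x, h⟩ else a x
          with ha'
        have ha'pos : ∀ x c, 0 < a' x c := by
          intro x c
          simp only [ha']
          split_ifs with h
          · exact hb _ _
          · exact ha x c
        set P' : Fin n → Fin n → ℝ := fun x y => Q146.BT.F d (a' x) (a' y) with hP'
        have hP'01 : ∀ x y, 0 ≤ P' x y ∧ P' x y ≤ 1 := fun x y =>
          ⟨Q146.BT.F_nonneg d _ _ (ha'pos x) (ha'pos y),
            Q146.BT.F_le_one d hd0 _ _ (ha'pos x) (ha'pos y)⟩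
        have hmat : ∀ x y, x ≠ y → P' x y = mat K P' x y := by
          intro x y _
          unfold mat
          split_ifs
          · rfl
          · have := Q146.BT.F_add d hd0 (a' x) (a' y) (ha'pos x) (ha'pos y)
            simp only [hP']
            linarith
        have hdim : HasBTDim d (mat K P') := by
          rw [← dim_congr hmat]
          refine ⟨⟨fun c x => a' x c, fun c x => ha'pos x c, fun x y _ => rfl⟩, ?_⟩
          rintro ⟨g, hg, hgP⟩
          apply hnot
          refine ⟨fun c i => g c (e i), fun c i => hg c _, fun i j hij => ?_⟩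
          have hne : e i ≠ e j := by
            intro h
            apply hij
            have := congrArg Fin.val h
            exact Fin.ext this
          rw [← hgP (e i) (e j) hne, hbR i j hij]
          have e1 : ∀ i : Fin n₀, a' (e i) = fun c => b c i := by
            intro i
            simp only [ha', he, i.isLt, dif_pos]
          simp only [hP', e1]
          rfl
        have hf := hfar P' (fun x y _ => hP'01 x y) hdim
        have hb1 : ∑ x, ∑ y, (if K x y then |w x y - P' x y| else 0) ≤
            ∑ x : Fin n, ∑ y : Fin n, (|hat (mat K w) x y - Q146.BT.F d (a x) (a y)| +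
              ((if (x:ℕ) < n₀ then (1:ℝ) else 0) + (if (y:ℕ) < n₀ then (1:ℝ) else 0))) := by
          apply Finset.sum_le_sum
          intro x _
          apply Finset.sum_le_sum
          intro y _
          have q0 : 0 ≤ |hat (mat K w) x y - Q146.BT.F d (a x) (a y)| := abs_nonneg _
          have q1 : (0:ℝ) ≤ (if (x:ℕ) < n₀ then (1:ℝ) else 0) := by split_ifs <;> norm_num
          have q2 : (0:ℝ) ≤ (if (y:ℕ) < n₀ then (1:ℝ) else 0) := by split_ifs <;> norm_num
          by_cases hKxy : K x y
          · rw [if_pos hKxy]
            have hxy : x ≠ y := by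
              rintro rfl
              exact hK.1 x hKxy
            have hw1 := hw x y hKxy
            have hP1 := hP'01 x y
            have habs : |w x y - P' x y| ≤ 1 := by
              rw [abs_le]
              constructor <;> linarith [hw1.1, hw1.2, hP1.1, hP1.2]
            by_cases hx : (x:ℕ) < n₀
            · rw [if_pos hx]
              linarith
            · by_cases hy : (y:ℕ) < n₀
              · rw [if_pos hy]
                linarith
              · have e1 : P' x y = Q146.BT.F d (a x) (a y) := by
                  simp only [hP', ha', hx, hy, dif_neg, not_false_eq_true]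
                have e2 : hat (mat K w) x y = w x y := by
                  unfold hat mat
                  rw [if_neg hxy, if_pos hKxy]
                rw [e1, e2, if_neg hx, if_neg hy]
                linarith
          · rw [if_neg hKxy]
            linarith
        have hcount : ∑ x : Fin n, (if (x:ℕ) < n₀ then (1:ℝ) else 0) = n₀ := by
          rw [Finset.sum_boole]
          congr 1
          have : (univ.filter (fun x : Fin n => (x:ℕ) < n₀)) = univ.image e := by
            ext x
            simp only [Finset.mem_filter, Finset.mem_univ, true_and, Finset.mem_image, he]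
            constructor
            · intro h
              exact ⟨⟨x, h⟩, rfl⟩
            · rintro ⟨i, rfl⟩
              exact i.isLt
          rw [this, Finset.card_image_of_injective, Finset.card_univ, Fintype.card_fin]
          intro i j h
          have h2 : (e i : ℕ) = (e j : ℕ) := congrArg Fin.val h
          exact Fin.ext h2
        have hb2 : ∑ x : Fin n, ∑ y : Fin n, (|hat (mat K w) x y - Q146.BT.F d (a x) (a y)| +
              ((if (x:ℕ) < n₀ then (1:ℝ) else 0) + (if (y:ℕ) < n₀ then (1:ℝ) else 0))) ≤
            ε / 4 * (n:ℝ) ^ 2 + 2 * (n₀ * n) := by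
          simp_rw [Finset.sum_add_distrib]
          have z1 : ∑ x : Fin n, ∑ y : Fin n, (if (x:ℕ) < n₀ then (1:ℝ) else 0) = n₀ * n := by
            simp_rw [Finset.sum_const, Finset.card_univ, Fintype.card_fin, nsmul_eq_mul]
            rw [← Finset.mul_sum, hcount, mul_comm]
          have z2 : ∑ x : Fin n, ∑ y : Fin n, (if (y:ℕ) < n₀ then (1:ℝ) else 0) = n₀ * n := by
            rw [hcount, Finset.sum_const, Finset.card_univ, Fintype.card_fin, nsmul_eq_mul,
              mul_comm]
          rw [z1, z2]
          linarith
        have hsmall : 2 * ((n₀:ℝ) * n) ≤ ε / 4 * (n:ℝ) ^ 2 := by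
          rw [div_le_iff₀ hε] at hn8
          nlinarith
        have hfin : ε * (n:ℝ) ^ 2 ≤ ε / 4 * (n:ℝ) ^ 2 + ε / 4 * (n:ℝ) ^ 2 := by linarith
        have hpos2 : 0 < ε * (n:ℝ) ^ 2 := by positivity
        linarith
  · refine ⟨0, fun n => ?_⟩
    refine ⟨⟨Unit, inferInstance, inferInstance, fun _ => ∅, fun _ => by simp, fun _ _ => False,
      fun _ _ _ _ => Iff.rfl⟩, ?_⟩
    intro K w hK hw
    refine ⟨fun h => absurd ⟨n, _, h⟩ hex, fun _ => ?_⟩
    unfold Tester.acceptProb
    have : Nat.card {ω : Unit // False} = 0 := by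
      haveI : IsEmpty {ω : Unit // False} := ⟨fun ω => ω.2⟩
      exact Nat.card_of_isEmpty
    simp only [this]
    norm_num

end Pool.Agent.Results.MP_4530c2_lc.BTDimTestable
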